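import Pool.Agent.H46.FS.Sq
import Pool.Agent.H43.FreeSet.Core

set_option autoImplicit false

open Cardinal Order Set

/-! # Lifting finite-valued set mappings through squares -/

namespace Pool.Agent.H54.FS

open Pool.Agent.H46.FS

/-- there is a set mapping on `X` with finite values such that for every `m ≥ m0` there is no set of
size `κ1⁺` which is free for the `m`-element subsets -/
def NoFree (κ1 : Cardinal.{0}) (m0 : ℕ) (X : Type) : Prop :=
  ∃ f : Finset X → Set X, (∀ Y, (f Y).Finite ∧ Disjoint (Y : Set X) (f Y)) ∧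
    ∀ m, m0 ≤ m → ∀ T : Set X, succ κ1 ≤ #T → ∃ x : Finset X, x.card = m ∧ (x : Set X) ⊆ T ∧
      ∃ u ∈ T, u ∈ f x

lemma NoFree.congr {κ1 : Cardinal.{0}} {m0 : ℕ} {X Y : Type} (h : NoFree κ1 m0 X) (e : X ≃ Y) :
    NoFree κ1 m0 Y := by
  classical
  obtain ⟨f, h1, h2⟩ := h
  refine ⟨fun y => e '' (f (y.image e.symm)), ?_, ?_⟩
  · intro y
    refine ⟨(h1 _).1.image e, ?_⟩
    rw [Set.disjoint_left]
    rintro _ hy ⟨u, hu, rfl⟩
    refine Set.disjoint_left.1 (h1 (y.image e.symm)).2 ?_ hu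
    rw [Finset.mem_coe, Finset.mem_image]
    exact ⟨e u, hy, e.symm_apply_apply u⟩
  · intro m hm T hT
    obtain ⟨x, hx1, hx2, u, hu1, hu2⟩ := h2 m hm (e ⁻¹' T) (by
      rw [Cardinal.mk_preimage_equiv]
      exact hT)
    refine ⟨x.image e, ?_, ?_, e u, hu1, ?_⟩
    · rw [Finset.card_image_of_injective _ e.injective, hx1]
    · intro a ha
      rw [Finset.coe_image] at ha
      obtain ⟨b, hb, rfl⟩ := ha
      exact hx2 hb
    · have h3 : (x.image e).image e.symm = x := by
        rw [Finset.image_image]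
        simp
      show e u ∈ e '' (f ((x.image e).image e.symm))
      rw [h3]
      exact ⟨u, hu2, rfl⟩

lemma NoFree.toMap {κ1 : Cardinal.{0}} {m0 : ℕ} {X : Type} (h : NoFree κ1 m0 X) :
    ∃ f : Finset X → Set X, (∀ Y, (f Y).Finite ∧ Disjoint (Y : Set X) (f Y)) ∧
      ∀ m, m0 ≤ m → ∀ T : Set X,
        (∀ x : Finset X, x.card = m → (x : Set X) ⊆ T → Disjoint T (f x)) → #T < succ κ1 := by
  obtain ⟨f, h1, h2⟩ := h
  refine ⟨f, h1, fun m hm T hT => ?_⟩
  by_contra hcon
  rw [not_lt] at hcon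
  obtain ⟨x, hx1, hx2, u, hu1, hu2⟩ := h2 m hm T hcon
  exact Set.disjoint_left.1 (hT x hx1 hx2) hu1 hu2

/-- the base: `H43.FreeSet.main` -/
lemma noFree_base {μ : Cardinal.{0}} (hμ : ℵ₀ ≤ μ) (h2 : (2 : Cardinal.{0}) ^ μ = succ μ) :
    NoFree μ 3 (succ (succ μ)).ord.ToType := by
  obtain ⟨f, h1, h3⟩ := H43.FreeSet.main hμ h2 (succ (succ μ)).ord.ToType
    (by rw [Cardinal.mk_ord_toType])
  refine ⟨f, h1, ?_⟩
  intro m hm T hT
  by_contra hcon
  push Not at hcon
  refine absurd (h3 m hm T ?_) (not_lt.2 hT)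
  intro x hx1 hx2
  rw [Set.disjoint_left]
  intro u hu1 hu2
  exact hcon x hx1 hx2 u hu1 hu2

section
variable {X M : Type} [LinearOrder X]

open Classical in
/-- the map transported to the initial segment below `d` -/
def Fd (F : Finset M → Set M) (e : X → M) (d : X) (x : Finset X) : Set X :=
  {u | u < d ∧ e u ∈ F (x.image e)}

lemma Fd_finite {F : Finset M → Set M} {e : X → M} {d : X} (he : Set.InjOn e (Set.Iio d))
    (hF : ∀ x, (F x).Finite) (x : Finset X) : (Fd F e d x).Finite := by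
  classical
  have h1 : (e '' (Fd F e d x)).Finite := by
    refine (hF (x.image e)).subset ?_
    rintro _ ⟨u, ⟨-, hu⟩, rfl⟩
    convert hu
  exact h1.of_finite_image (he.mono (fun u hu => hu.1))

lemma transportF {F : Finset M → Set M} {e : X → M} {d : X}
    (he : Set.InjOn e (Set.Iio d)) {κ2 : Cardinal.{0}} {m : ℕ}
    (hD : ∀ x : Finset M, Disjoint (x : Set M) (F x))
    (hF : ∀ T : Set M, κ2 ≤ #T → ∃ x : Finset M, x.card = m ∧ (x : Set M) ⊆ T ∧
      ∃ u ∈ T, u ∈ F x) {T : Set X} (hTd : T ⊆ Set.Iio d) (hT : κ2 ≤ #T) :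
    ∃ x : Finset X, x.card = m ∧ (x : Set X) ⊆ T ∧ ∃ u ∈ T, u ∉ x ∧ u ∈ Fd F e d x := by
  classical
  have heT : Set.InjOn e T := he.mono hTd
  obtain ⟨x', hx'1, hx'2, u', hu'1, hu'2⟩ := hF (e '' T) (by
    rw [Cardinal.mk_image_eq_of_injOn _ _ heT]
    exact hT)
  obtain ⟨x, hxT, rfl⟩ := Finset.subset_set_image_iff.1 hx'2
  obtain ⟨u, huT, rfl⟩ := hu'1
  refine ⟨x, ?_, hxT, u, huT, ?_, hTd huT, ?_⟩
  · rw [Finset.card_image_of_injOn (heT.mono hxT)] at hx'1
    exact hx'1
  · intro hux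
    refine Set.disjoint_left.1 (hD (x.image e)) ?_ hu'2
    rw [Finset.mem_coe]
    exact Finset.mem_image_of_mem e hux
  · convert hu'2

end

section
variable {X M : Type} [LinearOrder X] [WellFoundedLT X]

/-- the walks are finite -/
lemma walk_finite {step : X → X → X} (h1 : ∀ ξ δ, ξ < δ → step ξ δ < δ)
    (h2 : ∀ ξ δ, ¬ ξ < δ → step ξ δ = δ) (ξ : X) :
    ∀ δ, (Set.range (fun k : ℕ => (step ξ)^[k] δ)).Finite := by
  intro δ
  induction δ using WellFoundedLT.induction with
  | ind δ ih =>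
    by_cases h : ξ < δ
    · refine ((Set.finite_singleton δ).union (ih (step ξ δ) (h1 ξ δ h))).subset ?_
      rintro _ ⟨k, rfl⟩
      rcases k with _ | k
      · exact Or.inl rfl
      · refine Or.inr ⟨k, ?_⟩
        show (step ξ)^[k] (step ξ δ) = (step ξ)^[k + 1] δ
        rw [Function.iterate_succ_apply]
    · refine (Set.finite_singleton δ).subset ?_
      rintro _ ⟨k, rfl⟩
      induction k with
      | zero => exact rfl
      | succ k ihk =>
        have h3 : (step ξ)^[k] δ = δ := ihk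
        show (step ξ)^[k + 1] δ = δ
        rw [Function.iterate_succ_apply', h3, h2 ξ δ h]

/-- the main step: from a set mapping on `M` to a set mapping on `X` with one more variable, given a
coherent system of injections of the initial segments of `X` into `M` -/
lemma stepF_abs {κ1 μ : Cardinal.{0}} (hκ1 : ℵ₀ ≤ κ1) (hμ : succ κ1 ≤ μ)
    (hX : ∀ s : Set X, #s ≤ μ → ∃ u, ∀ x ∈ s, x < u)
    {m0 : ℕ} (hm0 : 1 ≤ m0) (hG : NoFree κ1 m0 M) (C : X → Set X) (e : X → X → M)
    (hC1 : ∀ δ, ∀ b ∈ C δ, b < δ) (hC2 : ∀ δ, ∀ a < δ, ∃ b ∈ C δ, a ≤ b)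
    (he : ∀ δ, Set.InjOn (e δ) (Set.Iio δ))
    (hcoh : ∀ δ c, Acc' (C δ) c → ∀ ξ < c, e c ξ = e δ ξ) : NoFree κ1 (m0 + 1) X := by
  classical
  obtain ⟨F, hF1, hF2⟩ := hG
  -- the walk
  have hst : ∀ ξ δ : X, ∃ s : X, (ξ < δ → s ∈ C δ ∧ ξ ≤ s ∧ ∀ b ∈ C δ, ξ ≤ b → s ≤ b) ∧
      (¬ ξ < δ → s = δ) := by
    intro ξ δ
    by_cases h : ξ < δ
    · obtain ⟨b, hb1, hb2⟩ := hC2 δ ξ h
      obtain ⟨s, ⟨hs1, hs2⟩, hs3⟩ := exists_min (P := fun b => b ∈ C δ ∧ ξ ≤ b) ⟨b, hb1, hb2⟩
      exact ⟨s, fun _ => ⟨hs1, hs2, fun b hb hξb => hs3 b ⟨hb, hξb⟩⟩, fun h' => absurd h h'⟩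
    · exact ⟨δ, fun h' => absurd h' h, fun _ => rfl⟩
  choose step hstep2 using hst
  have hstep : ∀ ξ δ, ξ < δ → step ξ δ ∈ C δ ∧ ξ ≤ step ξ δ ∧
      ∀ b ∈ C δ, ξ ≤ b → step ξ δ ≤ b := fun ξ δ => (hstep2 ξ δ).1
  have hfin : ∀ ξ δ, (Set.range (fun k : ℕ => (step ξ)^[k] δ)).Finite :=
    walk_finite (fun ξ δ h => hC1 δ _ (hstep ξ δ h).1) (fun ξ δ => (hstep2 ξ δ).2)
  -- the new map
  let G : Finset X → Set X := fun y =>
    if hy : y.Nonempty then
      if hx : (y.erase (y.max' hy)).Nonempty then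
        (⋃ d ∈ Set.range (fun k : ℕ => (step ((y.erase (y.max' hy)).max' hx))^[k] (y.max' hy)),
          Fd F (e d) d (y.erase (y.max' hy))) \ (y : Set X)
      else ∅
    else ∅
  have hKn : ∀ (x : Finset X) (hx : x.Nonempty) (δ : X), (∀ a ∈ x, a < δ) → ∀ k : ℕ,
      ∀ u, u ∉ insert δ x → u ∈ Fd F (e ((step (x.max' hx))^[k] δ)) ((step (x.max' hx))^[k] δ) x →
      u ∈ G (insert δ x) := by
    intro x hx δ hδ k u hu1 hu2
    have hδx : δ ∉ x := fun h => lt_irrefl _ (hδ δ h)
    have h1 : (insert δ x).max' (Finset.insert_nonempty δ x) = δ := by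
      apply le_antisymm
      · apply Finset.max'_le
        intro b hb
        rcases Finset.mem_insert.1 hb with rfl | hb
        · exact le_rfl
        · exact (hδ b hb).le
      · exact Finset.le_max' _ _ (Finset.mem_insert_self _ _)
    have h2 : (insert δ x).erase ((insert δ x).max' (Finset.insert_nonempty δ x)) = x := by
      rw [h1, Finset.erase_insert hδx]
    have h3 : ((insert δ x).erase
        ((insert δ x).max' (Finset.insert_nonempty δ x))).Nonempty := by
      rw [h2]; exact hx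
    show u ∈ (if hy : (insert δ x).Nonempty then _ else _)
    rw [dif_pos (Finset.insert_nonempty δ x), dif_pos h3]
    refine ⟨?_, fun h => hu1 (Finset.mem_coe.1 h)⟩
    have h4 : ((insert δ x).erase
        ((insert δ x).max' (Finset.insert_nonempty δ x))).max' h3 = x.max' hx := by
      congr 1
    rw [h4, h2, h1]
    exact Set.mem_biUnion ⟨k, rfl⟩ hu2
  refine ⟨G, ?_, ?_⟩
  · intro y
    show (if hy : y.Nonempty then _ else _ : Set X).Finite ∧
      Disjoint (y : Set X) (if hy : y.Nonempty then _ else _ : Set X)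
    split_ifs with hy hx
    · refine ⟨?_, Set.disjoint_sdiff_right⟩
      refine (Set.Finite.biUnion (hfin _ _) ?_).subset Set.sdiff_subset
      intro d _
      exact Fd_finite (he _) (fun x => (hF1 x).1) _
    · exact ⟨Set.finite_empty, Set.disjoint_empty _⟩
    · exact ⟨Set.finite_empty, Set.disjoint_empty _⟩
  · intro m' hm' T0 hT0
    obtain ⟨m, rfl⟩ : ∃ m, m' = m + 1 := ⟨m' - 1, by omega⟩
    have hm : 1 ≤ m := by omega
    have hK2 := hF2 m (by omega)
    obtain ⟨T, hTT0, hTcard⟩ := Cardinal.le_mk_iff_exists_subset.1 hT0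
    suffices H : ∃ y : Finset X, y.card = m + 1 ∧ (y : Set X) ⊆ T ∧ ∃ u ∈ T, u ∈ G y by
      obtain ⟨y, h1, h2, u, h3, h4⟩ := H
      exact ⟨y, h1, h2.trans hTT0, u, hTT0 h3, h4⟩
    by_cases hcase : ∃ δ ∈ T, succ κ1 ≤ #(T ∩ Set.Iio δ : Set X)
    · obtain ⟨δ, hδ, hcard⟩ := hcase
      obtain ⟨x, hx1, hx2, u, hu1, hu2, hu3⟩ := transportF (he δ) (fun x => (hF1 x).2) hK2
        (T := T ∩ Set.Iio δ) Set.inter_subset_right hcard
      have hxδ : ∀ a ∈ x, a < δ := fun a ha => (hx2 ha).2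
      have hδx : δ ∉ x := fun h => lt_irrefl _ (hxδ δ h)
      have hxne : x.Nonempty := by
        rw [← Finset.card_pos, hx1]
        exact hm
      refine ⟨insert δ x, ?_, ?_, u, hu1.1, ?_⟩
      · rw [Finset.card_insert_of_notMem hδx, hx1]
      · rw [Finset.coe_insert, Set.insert_subset_iff]
        exact ⟨hδ, hx2.trans Set.inter_subset_left⟩
      · refine hKn x hxne δ hxδ 0 u ?_ hu3
        rw [Finset.mem_insert, not_or]
        exact ⟨(ne_of_lt hu1.2), hu2⟩
    · push Not at hcase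
      have hseg : ∀ δ ∈ T, #(T ∩ Set.Iio δ : Set X) ≤ κ1 := fun δ hδ =>
        Order.le_of_lt_succ (hcase δ hδ)
      have F2 : ∀ A : Set X, A ⊆ T → #A ≤ κ1 → ∃ t ∈ T, ∀ a ∈ A, a < t := fun A h1 h2 =>
        bounded_in hκ1 hTcard.ge hseg h1 h2
      obtain ⟨u, hu⟩ := hX T (by rw [hTcard]; exact hμ)
      obtain ⟨θ, hθ1, hθ2⟩ := exists_min (P := fun u => ∀ x ∈ T, x < u) ⟨u, hu⟩
      have F1 : ∀ t ∈ T, ∃ t' ∈ T, t < t' := by
        intro t ht
        obtain ⟨t', ht', h⟩ := F2 {t} (by simpa using ht) (by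
          rw [Cardinal.mk_singleton]
          exact (Cardinal.one_le_aleph0).trans hκ1)
        exact ⟨t', ht', h t rfl⟩
      have F0 : ∀ a < θ, ∃ t ∈ T, a < t := by
        intro a ha
        by_contra hcon
        push Not at hcon
        have : ∀ x ∈ T, x < a := by
          intro x hx
          obtain ⟨t', ht', h⟩ := F1 x hx
          exact h.trans_le (hcon t' ht')
        exact absurd (hθ2 a this) (not_le.2 ha)
      have F3 : ∀ s : ℕ → X, (∀ k, s k < θ) → ∃ t ∈ T, ∀ k, s k < t := by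
        intro s hs
        choose t ht1 ht2 using fun k => F0 (s k) (hs k)
        obtain ⟨t', ht', h⟩ := F2 (Set.range t) (by rintro _ ⟨k, rfl⟩; exact ht1 k) (by
          refine (Cardinal.mk_range_le (f := t)).trans ?_
          simpa using hκ1)
        exact ⟨t', ht', fun k => (ht2 k).trans (h _ ⟨k, rfl⟩)⟩
      -- least upper bounds of strictly increasing sequences
      have F4 : ∀ s : ℕ → X, (∀ k, s k < θ) → (∀ k, s k < s (k + 1)) →
          ∃ c < θ, (∀ k, s k < c) ∧ ∀ a < c, ∃ k, a < s k := by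
        intro s hs hinc
        obtain ⟨t, ht, hst⟩ := F3 s hs
        obtain ⟨c, hc1, hc2⟩ := exists_min (P := fun c => ∀ k, s k < c) ⟨t, hst⟩
        refine ⟨c, (hc2 t hst).trans_lt (hθ1 t ht), hc1, ?_⟩
        intro a ha
        by_contra hcon
        push Not at hcon
        exact absurd (hc2 a (fun k => (hinc k).trans_le (hcon (k + 1)))) (not_le.2 ha)
      -- limit points of `C θ` are unbounded below `θ`
      have F5 : ∀ a < θ, ∃ c, a < c ∧ c < θ ∧ Acc' (C θ) c := by
        intro a ha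
        have hnext : ∀ b : X, ∃ b' : X, b < θ → b' ∈ C θ ∧ b < b' ∧ b' < θ := by
          intro b
          by_cases hb : b < θ
          · obtain ⟨t, ht, hbt⟩ := F0 b hb
            obtain ⟨b', hb'1, hb'2⟩ := hC2 θ t (hθ1 t ht)
            exact ⟨b', fun _ => ⟨hb'1, hbt.trans_le hb'2, hC1 θ _ hb'1⟩⟩
          · exact ⟨b, fun h => absurd h hb⟩
        choose nx hnx using hnext
        let s : ℕ → X := fun k => nx^[k] a
        have hs : ∀ k, s k < θ := by
          intro k
          induction k with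
          | zero => exact ha
          | succ k ih =>
            show nx^[k + 1] a < θ
            rw [Function.iterate_succ_apply']
            exact (hnx _ ih).2.2
        have hs' : ∀ k, s (k + 1) = nx (s k) := fun k => Function.iterate_succ_apply' nx k a
        have hinc : ∀ k, s k < s (k + 1) := by
          intro k
          rw [hs' k]
          exact (hnx _ (hs k)).2.1
        obtain ⟨c, hcθ, hc1, hc2⟩ := F4 s hs hinc
        refine ⟨c, hc1 0, hcθ, ⟨a, hc1 0⟩, ?_⟩
        intro a' ha'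
        obtain ⟨k, hk⟩ := hc2 a' ha'
        refine ⟨s (k + 1), ?_, hk.trans (hinc k), hc1 (k + 1)⟩
        rw [hs' k]
        exact (hnx _ (hs k)).1
      let P : X → X → Prop := fun η c => ∃ δ ∈ T, c ≤ δ ∧ ∀ ξ, η < ξ → ξ < c → ∃ k : ℕ,
        c ≤ (step ξ)^[k] δ ∧ ((step ξ)^[k] δ = c ∨ Acc' (C ((step ξ)^[k] δ)) c)
      have hPmono : ∀ η η' c, η ≤ η' → P η c → P η' c := by
        rintro η η' c h ⟨δ, h1, h2, h3⟩
        exact ⟨δ, h1, h2, fun ξ hξ => h3 ξ (h.trans_lt hξ)⟩
      have hP : ∀ c < θ, (∃ a, a < c) → ∃ η < c, P η c := by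
        intro c hc hac
        obtain ⟨δ, hδ, hcδ⟩ := F0 c hc
        obtain ⟨η, hη, h⟩ := walk hC1 hstep c hac δ hcδ.le
        exact ⟨η, hη, δ, hδ, hcδ.le, h⟩
      have F6 : ∃ η < θ, ∀ a < θ, ∃ c, a < c ∧ c < θ ∧ Acc' (C θ) c ∧ P η c := by
        by_contra hcon
        push Not at hcon
        have hg : ∀ η : X, ∃ a : X, η < θ → a < θ ∧ ∀ c, a < c → c < θ → Acc' (C θ) c →
            ¬ P η c := by
          intro η
          by_cases h : η < θ
          · obtain ⟨a, ha, h'⟩ := hcon η h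
            exact ⟨a, fun _ => ⟨ha, h'⟩⟩
          · exact ⟨η, fun h' => absurd h' h⟩
        choose g hg using hg
        have hnext : ∀ b : X, ∃ b' : X, b < θ → b < b' ∧ g b < b' ∧ b' < θ ∧ Acc' (C θ) b' := by
          intro b
          by_cases hb : b < θ
          · obtain ⟨c, h1, h2, h3⟩ := F5 (max b (g b)) (max_lt hb (hg b hb).1)
            exact ⟨c, fun _ => ⟨(le_max_left _ _).trans_lt h1, (le_max_right _ _).trans_lt h1,
              h2, h3⟩⟩
          · exact ⟨b, fun h => absurd h hb⟩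
        choose nx hnx using hnext
        have hTne : T.Nonempty := by
          by_contra h
          rw [Set.not_nonempty_iff_eq_empty] at h
          rw [h] at hTcard
          simp at hTcard
          exact absurd hTcard.symm (Order.bot_lt_succ κ1).ne'
        obtain ⟨t0, ht0⟩ := hTne
        let s : ℕ → X := fun k => nx^[k] t0
        have hs : ∀ k, s k < θ := by
          intro k
          induction k with
          | zero => exact hθ1 t0 ht0
          | succ k ih =>
            show nx^[k + 1] t0 < θ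
            rw [Function.iterate_succ_apply']
            exact (hnx _ ih).2.2.1
        have hs' : ∀ k, s (k + 1) = nx (s k) := fun k => Function.iterate_succ_apply' nx k t0
        have hinc : ∀ k, s k < s (k + 1) := by
          intro k
          rw [hs' k]
          exact (hnx _ (hs k)).1
        obtain ⟨c, hcθ, hc1, hc2⟩ := F4 s hs hinc
        have hacc : Acc' (C θ) c := by
          refine ⟨⟨_, hc1 0⟩, ?_⟩
          intro a' ha'
          obtain ⟨k, hk⟩ := hc2 a' ha'
          have h1 : Acc' (C θ) (s (k + 1)) := by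
            rw [hs' k]
            exact (hnx _ (hs k)).2.2.2
          obtain ⟨b, hb1, hb2, hb3⟩ := h1.2 (s k) (hinc k)
          exact ⟨b, hb1, hk.trans hb2, hb3.trans (hc1 (k + 1))⟩
        obtain ⟨η, hη, hPη⟩ := hP c hcθ ⟨_, hc1 0⟩
        obtain ⟨k, hk⟩ := hc2 η hη
        refine (hg (s k) (hs k)).2 c ?_ hcθ hacc (hPmono _ _ _ hk.le hPη)
        have h1 := (hnx _ (hs k)).2.1
        rw [← hs' k] at h1
        exact h1.trans (hc1 (k + 1))
      obtain ⟨η, hηθ, hη⟩ := F6
      -- the part of `T` above `η`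
      have hT'' : succ κ1 ≤ #(T ∩ Set.Ioi η : Set X) := by
        by_contra hcon
        rw [not_le] at hcon
        obtain ⟨t, ht, hηt⟩ := F0 η hηθ
        have h1 : T ⊆ (T ∩ Set.Iio t) ∪ (T ∩ Set.Ioi η) := by
          intro x hx
          rcases lt_or_ge η x with h | h
          · exact Or.inr ⟨hx, h⟩
          · exact Or.inl ⟨hx, h.trans_lt hηt⟩
        have h2 := (Cardinal.mk_le_mk_of_subset h1).trans (Cardinal.mk_union_le _ _)
        have h3 : #(T ∩ Set.Iio t : Set X) + #(T ∩ Set.Ioi η : Set X) < succ κ1 :=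
          Cardinal.add_lt_of_lt (hκ1.trans (le_succ _))
            ((hseg t ht).trans_lt (lt_succ _)) hcon
        exact absurd (hTcard.ge.trans h2) (not_le.2 h3)
      obtain ⟨x, hx1, hx2, u, hu1, hu2, hu3⟩ := transportF (he θ) (fun x => (hF1 x).2) hK2
        (T := T ∩ Set.Ioi η) (fun a ha => hθ1 a ha.1) hT''
      have hxne : x.Nonempty := by
        rw [← Finset.card_pos, hx1]
        exact hm
      obtain ⟨t, ht, hAxt⟩ := F2 ({u} ∪ (x : Set X))
        (Set.union_subset (Set.singleton_subset_iff.2 hu1.1) (hx2.trans Set.inter_subset_left)) (by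
          have h1 : ({u} ∪ (x : Set X)).Finite := (Set.finite_singleton u).union x.finite_toSet
          exact ((Cardinal.lt_aleph0_iff_set_finite.2 h1).le).trans hκ1)
      obtain ⟨c, htc, hcθ, hacc, δ, hδT, hcδ, hδ⟩ := hη t (hθ1 t ht)
      have hmaxx : x.max' hxne ∈ x := Finset.max'_mem _ _
      have hξ1 : η < x.max' hxne := (hx2 hmaxx).2
      have hξ2 : x.max' hxne < c := (hAxt _ (Or.inr hmaxx)).trans htc
      obtain ⟨k, hk1, hk2⟩ := hδ _ hξ1 hξ2
      set d := (step (x.max' hxne))^[k] δ with hd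
      have huc : u < c := (hAxt u (Or.inl rfl)).trans htc
      have hxc : ∀ a ∈ x, a < c := fun a ha => (hAxt a (Or.inr ha)).trans htc
      have hxδ : ∀ a ∈ x, a < δ := fun a ha => (hxc a ha).trans_le hcδ
      have hed : ∀ a < c, e d a = e θ a := by
        intro a ha
        rcases hk2 with h | h
        · rw [h]
          exact hcoh θ c hacc a ha
        · rw [← hcoh d c h a ha]
          exact hcoh θ c hacc a ha
      have hud : u ∈ Fd F (e d) d x := by
        refine ⟨huc.trans_le hk1, ?_⟩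
        have h2 : x.image (e d) = x.image (e θ) :=
          Finset.image_congr (fun a ha => hed a (hxc a ha))
        have h3 := hu3.2
        rw [hed u huc]
        convert h3 using 2
      have hδx : δ ∉ x := fun h => lt_irrefl _ (hxδ δ h)
      refine ⟨insert δ x, ?_, ?_, u, hu1.1, ?_⟩
      · rw [Finset.card_insert_of_notMem hδx, hx1]
      · rw [Finset.coe_insert, Set.insert_subset_iff]
        exact ⟨hδT, hx2.trans Set.inter_subset_left⟩
      · refine hKn x hxne δ hxδ k u ?_ hud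
        rw [Finset.mem_insert, not_or]
        exact ⟨ne_of_lt (huc.trans_le hcδ), hu2⟩

end

/-- one more variable, one cardinal up, under square -/
lemma noFree_step {κ1 μ : Cardinal.{0}} (hκ1 : ℵ₀ ≤ κ1) (hμ : succ κ1 ≤ μ) (hsq : Square μ)
    {m : ℕ} (hm : 1 ≤ m) (hG : NoFree κ1 m μ.ord.ToType) :
    NoFree κ1 (m + 1) (succ μ).ord.ToType := by
  have hμ0 : ℵ₀ ≤ μ := (aleph0_le_succ hκ1).trans hμ
  obtain ⟨C, e, h1, h2, h3, h4⟩ := square_data hμ0 hsq
  refine stepF_abs hκ1 hμ ?_ hm hG C e h1 h2 h3 h4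
  intro s hs
  exact bounded_ord (Cardinal.isRegular_succ hμ0) s (hs.trans_lt (lt_succ μ))

end Pool.Agent.H54.FS
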